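import Pool.Agent.W37.SG.Stm2

/-!
MP_9a3597_al, project SG: the derivation `D` (statement `S_DHY`).
-/

namespace Pool.Agent.W61.SG.DHY

open Pool.Agent.W37.SG
open scoped BigOperators

variable {p : ℕ} [Fact p.Prime]

lemma p_ne : (p : ℤ_[p]) ≠ 0 := by
  exact_mod_cast (Fact.out : p.Prime).ne_zero

lemma phi_pow {s : ℕ} {X : Pm p} {Φ : Zf p} (h : ChartHyp p s X Φ) (n : ℕ)
    (x : ℕ → ZMod p) : Φ ((X ^ n) x) = Φ x + n := by
  induction n with
  | zero => simp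
  | succ n ih =>
    rw [pow_succ', Equiv.Perm.mul_apply, h.shift, ih]
    push_cast
    ring

lemma pow_ker {i : ℕ} {Y : Pm p} (h : IsKer p i Y) (t : ℕ) (x : ℕ → ZMod p) :
    Agr p i ((Y ^ t) x) x := by
  induction t with
  | zero => intro j hj; simp
  | succ t ih =>
    intro j hj
    rw [pow_succ', Equiv.Perm.mul_apply, h _ _ hj]
    exact ih j hj

lemma act_pow {Q : Subgroup (Pm p)} {J α : ℕ} {e : Pm p → Zf p} {Λ : Submodule ℤ_[p] (Zf p)}
    (hΛ : LHyp p Q J α e Λ) {X : Pm p} (hX : X ∈ Q) (he : ∀ x, e X x = 1) {f : Zf p}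
    (hf : f ∈ Λ) (n : ℕ) : (fun x => f ((X ^ n) x)) ∈ Λ := by
  induction n with
  | zero => simpa using hf
  | succ n ih =>
    have h := hΛ.act X hX _ ih
    have h2 : (fun x => f ((X ^ (n + 1)) x)) = (fun x => f ((X ^ n) (X x)) * e X x) := by
      funext x
      rw [he, mul_one, pow_succ, Equiv.Perm.mul_apply]
    rw [h2]
    exact h

lemma pure_pow {Q : Subgroup (Pm p)} {J α : ℕ} {e : Pm p → Zf p}
    {Λ : Submodule ℤ_[p] (Zf p)} (hΛ : LHyp p Q J α e Λ) (r : ℕ) :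
    ∀ f ∈ Λ, (∀ x, (p : ℤ_[p]) ^ r ∣ f x) → ∃ h ∈ Λ, ∀ x, f x = (p : ℤ_[p]) ^ r * h x := by
  induction r with
  | zero =>
    intro f hf _
    exact ⟨f, hf, by simp⟩
  | succ r ih =>
    intro f hf hd
    obtain ⟨h, hh, hfh⟩ := hΛ.pure f hf
      (fun x => dvd_trans (dvd_pow_self _ (Nat.succ_ne_zero r)) (hd x))
    have h1 : ∀ x, (p : ℤ_[p]) ^ r ∣ h x := by
      intro x
      have h1 := hd x
      rw [hfh x, pow_succ'] at h1
      exact (mul_dvd_mul_iff_left p_ne).1 h1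
    obtain ⟨k, hk, hhk⟩ := ih h hh h1
    exact ⟨k, hk, fun x => by rw [hfh x, hhk x]; ring⟩

lemma tele {Y : Pm p} {f g : Zf p} {q : ℤ_[p]} (hfg : ∀ x, f (Y x) - f x = q * g x) (t : ℕ)
    (x : ℕ → ZMod p) :
    f ((Y ^ t) x) - f x = q * ∑ l ∈ Finset.range t, g ((Y ^ l) x) := by
  induction t with
  | zero => simp
  | succ t ih =>
    rw [Finset.sum_range_succ, mul_add, ← ih, ← hfg, pow_succ', Equiv.Perm.mul_apply]
    ring

lemma sum_const {Y : Pm p} {h : Zf p} {q : ℤ_[p]} {x : ℕ → ZMod p}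
    (hh : ∀ l : ℕ, q ∣ h ((Y ^ l) x) - h x) (t : ℕ) :
    q ∣ ∑ l ∈ Finset.range t, h ((Y ^ l) x) - t * h x := by
  induction t with
  | zero => simp
  | succ t ih =>
    rw [Finset.sum_range_succ]
    have h2 := dvd_add ih (hh t)
    have h3 : ∑ l ∈ Finset.range t, h ((Y ^ l) x) + h ((Y ^ t) x) - ((t + 1 : ℕ) : ℤ_[p]) * h x =
        (∑ l ∈ Finset.range t, h ((Y ^ l) x) - t * h x) + (h ((Y ^ t) x) - h x) := by
      push_cast
      ring
    rw [h3]
    exact h2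

lemma step (hodd : p ≠ 2) {Y : Pm p} {f g h g' : Zf p} {r : ℕ} (hr : 1 ≤ r)
    (hfg : ∀ x, f (Y x) - f x = (p : ℤ_[p]) ^ r * g x)
    (hgh : ∀ x, g (Y x) - g x = (p : ℤ_[p]) ^ r * h x)
    (hh : ∀ x, ∀ l : ℕ, (p : ℤ_[p]) ^ r ∣ h ((Y ^ l) x) - h x)
    (hfg' : ∀ x, f ((Y ^ p) x) - f x = (p : ℤ_[p]) ^ (r + 1) * g' x) (x : ℕ → ZMod p) :
    (p : ℤ_[p]) ^ r ∣ g' x - g x := by
  have hp := p_ne (p := p)
  have h1 := tele hfg p x
  rw [hfg', pow_succ, mul_assoc] at h1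
  have h2 : (p : ℤ_[p]) * g' x = ∑ l ∈ Finset.range p, g ((Y ^ l) x) :=
    mul_left_cancel₀ (pow_ne_zero r hp) h1
  have h3 : ∀ l : ℕ, (p : ℤ_[p]) ^ (r + 1) ∣
      g ((Y ^ l) x) - g x - (p : ℤ_[p]) ^ r * (l * h x) := by
    intro l
    rw [tele hgh l x, ← mul_sub]
    have h4 := sum_const (hh x) l
    have h5 : (p : ℤ_[p]) ^ (r + 1) ∣ (p : ℤ_[p]) ^ r * (p : ℤ_[p]) ^ r := by
      rw [← pow_add]
      exact pow_dvd_pow _ (by omega)
    exact dvd_trans h5 (mul_dvd_mul_left _ h4)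
  have h6 : (p : ℤ_[p]) ^ (r + 1) ∣ ∑ l ∈ Finset.range p,
      (g ((Y ^ l) x) - g x - (p : ℤ_[p]) ^ r * (l * h x)) :=
    Finset.dvd_sum (fun l _ => h3 l)
  rw [Finset.sum_sub_distrib, Finset.sum_sub_distrib, ← h2, Finset.sum_const, Finset.card_range,
    nsmul_eq_mul, ← Finset.mul_sum, ← Finset.sum_mul] at h6
  have h7 : ∃ k : ℕ, ∑ l ∈ Finset.range p, (l : ℤ_[p]) = p * k := by
    have h8 : Odd p := (Fact.out : p.Prime).odd_of_ne_two hodd
    obtain ⟨k, hk⟩ := h8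
    refine ⟨k, ?_⟩
    have h9 := Finset.sum_range_id_mul_two p
    have h10 : ∑ l ∈ Finset.range p, l = p * k := by
      have h11 : p - 1 = 2 * k := by omega
      rw [h11] at h9
      have h12 : (∑ l ∈ Finset.range p, l) * 2 = (p * k) * 2 := by rw [h9]; ring
      omega
    rw [← Nat.cast_sum, h10]
    push_cast
    ring
  obtain ⟨k, hk⟩ := h7
  rw [hk] at h6
  have h13 : (p : ℤ_[p]) * g' x - p * g x - (p : ℤ_[p]) ^ r * (p * k * h x) =
      p * (g' x - g x) - (p : ℤ_[p]) ^ (r + 1) * (k * h x) := by ring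
  rw [h13] at h6
  have h14 : (p : ℤ_[p]) ^ (r + 1) ∣ p * (g' x - g x) := by
    have h15 := dvd_add h6 (Dvd.intro (k * h x) rfl : (p : ℤ_[p]) ^ (r + 1) ∣
      (p : ℤ_[p]) ^ (r + 1) * (k * h x))
    rwa [sub_add_cancel] at h15
  rw [pow_succ'] at h14
  exact (mul_dvd_mul_iff_left hp).1 h14

/-- completeness of `ℤ_p` in divisibility form -/
lemma exists_limit (u : ℕ → ℤ_[p]) (hu : ∀ n, (p : ℤ_[p]) ^ n ∣ u (n + 1) - u n) :
    ∃ L : ℤ_[p], ∀ n, (p : ℤ_[p]) ^ n ∣ L - u n := by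
  have hmono : ∀ n k, (p : ℤ_[p]) ^ n ∣ u (n + k) - u n := by
    intro n k
    induction k with
    | zero => simp
    | succ k ih =>
      have h1 : (p : ℤ_[p]) ^ n ∣ u (n + k + 1) - u (n + k) :=
        dvd_trans (pow_dvd_pow _ (by omega)) (hu (n + k))
      have h2 := dvd_add h1 ih
      rw [sub_add_sub_cancel] at h2
      exact h2
  have hnorm : ∀ (n : ℕ) (z : ℤ_[p]), (p : ℤ_[p]) ^ n ∣ z ↔ ‖z‖ ≤ (p : ℝ) ^ (-(n : ℤ)) := by
    intro n z
    rw [PadicInt.norm_le_pow_iff_mem_span_pow, Ideal.mem_span_singleton]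
  have hp1 : (1 : ℝ) < p := by exact_mod_cast (Fact.out : p.Prime).one_lt
  have hlim : Filter.Tendsto (fun n : ℕ => (p : ℝ) ^ (-(n : ℤ))) Filter.atTop (nhds 0) := by
    have h1 : (fun n : ℕ => (p : ℝ) ^ (-(n : ℤ))) = fun n : ℕ => ((p : ℝ)⁻¹) ^ n := by
      funext n
      rw [zpow_neg, zpow_natCast, inv_pow]
    rw [h1]
    exact tendsto_pow_atTop_nhds_zero_of_lt_one (by positivity) (inv_lt_one_of_one_lt₀ hp1)
  have hC : CauchySeq u := by
    rw [Metric.cauchySeq_iff']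
    intro ε hε
    obtain ⟨N, hN⟩ := (hlim.eventually (gt_mem_nhds hε)).exists
    refine ⟨N, fun n hn => ?_⟩
    obtain ⟨k, rfl⟩ := Nat.exists_eq_add_of_le hn
    rw [dist_eq_norm]
    exact lt_of_le_of_lt ((hnorm N _).1 (hmono N k)) hN
  obtain ⟨L, hL⟩ := cauchySeq_tendsto_of_complete hC
  refine ⟨L, fun n => ?_⟩
  rw [hnorm]
  have h1 : Filter.Tendsto (fun k => ‖u k - u n‖) Filter.atTop (nhds ‖L - u n‖) :=
    (hL.sub_const _).norm
  refine le_of_tendsto h1 ?_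
  filter_upwards [Filter.eventually_ge_atTop n] with k hk
  obtain ⟨m, rfl⟩ := Nat.exists_eq_add_of_le hk
  exact (hnorm n _).1 (hmono n m)

lemma exists_nat_approx (z : ℤ_[p]) (n : ℕ) : ∃ t : ℕ, (p : ℤ_[p]) ^ n ∣ z - t := by
  refine ⟨z.appr n, ?_⟩
  rw [← Ideal.mem_span_singleton]
  exact PadicInt.appr_spec n z

theorem core {s : ℕ} {Q : Subgroup (Pm p)} {X : Pm p} {J α : ℕ} {Φ : Zf p} {e : Pm p → Zf p}
    {Λ : Submodule ℤ_[p] (Zf p)} (hB : BHyp p s Q X J α Φ) (hE : EHyp p s Q X J Φ e)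
    (hΛ : LHyp p Q J α e Λ) (f : Zf p) (hf : f ∈ Λ) :
    ∃ g ∈ Λ, ∀ i, J ≤ i → ∀ x y, Agr p i x y → (p : ℤ_[p]) ^ (2 * i - J - s) ∣
      (p : ℤ_[p]) ^ (J - s) * (f y - f x) - (Φ y - Φ x) * g x := by
  have hp := p_ne (p := p)
  have hsJ := hB.A.sJ
  -- the elements `Y i`
  set Y : ℕ → Pm p := fun i => X ^ p ^ (i - s) with hY
  have hYk : ∀ i, J ≤ i → IsKer p i (Y i) := fun i hi => (hB.xp i (by omega)).1
  have hYs : ∀ i, J ≤ i → Y (i + 1) = Y i ^ p := by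
    intro i hi
    simp only [hY]
    rw [← pow_mul, ← pow_succ]
    congr 2
    omega
  have hYΦ : ∀ i (t : ℕ) x, Φ ((Y i ^ t) x) = Φ x + t * (p : ℤ_[p]) ^ (i - s) := by
    intro i t x
    simp only [hY]
    rw [← pow_mul, phi_pow hB.chart]
    push_cast
    ring
  -- the operators `D i`
  have hD : ∀ f ∈ Λ, ∀ i, J ≤ i → ∃ g ∈ Λ, ∀ x, f (Y i x) - f x = (p : ℤ_[p]) ^ (i - J) * g x := by
    intro f hf i hi
    have h1 : (fun x => f (Y i x) - f x) ∈ Λ :=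
      Λ.sub_mem (act_pow hΛ hB.XQ hE.X1 hf (p ^ (i - s))) hf
    refine pure_pow hΛ (i - J) _ h1 (fun x => ?_)
    refine hΛ.lip f hf i hi _ _ ?_
    intro j hj
    exact hYk i hi x j hj
  -- the approximations
  have hG : ∀ n : ℕ, ∃ g ∈ Λ, ∀ x, f (Y (J + n) x) - f x = (p : ℤ_[p]) ^ n * g x := by
    intro n
    obtain ⟨g, hg, hg2⟩ := hD f hf (J + n) (by omega)
    refine ⟨g, hg, fun x => ?_⟩
    rw [hg2 x]
    congr 2
    omega
  choose G hGΛ hG using hG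
  have hstep : ∀ n : ℕ, ∀ x, (p : ℤ_[p]) ^ n ∣ G (n + 1) x - G n x := by
    intro n x
    rcases Nat.eq_zero_or_pos n with rfl | hn
    · simp
    · obtain ⟨h, hh, hGh⟩ := hD (G n) (hGΛ n) (J + n) (by omega)
      have h1 : J + n - J = n := by omega
      rw [h1] at hGh
      refine step hB.odd hn (hG n) hGh ?_ ?_ x
      · intro x l
        have h2 := hΛ.lip h hh (J + n) (by omega) _ _ (pow_ker (hYk (J + n) (by omega)) l x)
        rwa [h1] at h2
      · intro x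
        rw [← hYs (J + n) (by omega)]
        exact hG (n + 1) x
  have hlim : ∀ x, ∃ L : ℤ_[p], ∀ n, (p : ℤ_[p]) ^ n ∣ L - G n x :=
    fun x => exists_limit (fun n => G n x) (fun n => hstep n x)
  choose g hg using hlim
  refine ⟨g, ?_, ?_⟩
  · exact hΛ.closed g (fun R => ⟨G R, hGΛ R, fun x => hg x R⟩)
  · intro i hi x y hxy
    obtain ⟨n, rfl⟩ := Nat.exists_eq_add_of_le hi
    obtain ⟨m, rfl⟩ := Nat.exists_eq_add_of_le hsJ
    -- `J = s + m`, `i = s + m + n`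
    have hb : (p : ℤ_[p]) ^ (m + n) ∣ Φ y - Φ x := by
      have h1 : Agr p s x y := fun j hj => hxy j (by omega)
      have h2 : Agr p (s + (m + n)) x y := fun j hj => hxy j (by omega)
      have h3 := (hB.chart.base (m + n) x y h1).1 h2
      rw [← neg_sub]
      exact (dvd_neg).2 h3
    obtain ⟨z, hz⟩ := hb
    obtain ⟨t, ht⟩ := exists_nat_approx z (s + m + n)
    set w : ℕ → ZMod p := (Y (s + m + n) ^ t) x with hw
    have hΦw : Φ w = Φ x + t * (p : ℤ_[p]) ^ (m + n) := by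
      rw [hw, hYΦ]
      congr 3
      omega
    have hwx : Agr p (s + m + n) w x := pow_ker (hYk (s + m + n) hi) t x
    -- `w` and `y` agree on many coordinates
    have hwy : Agr p (s + (m + n + (s + m + n))) w y := by
      have h1 : Agr p s w y := fun j hj => (hwx j (by omega)).trans (hxy j (by omega))
      refine (hB.chart.base (m + n + (s + m + n)) w y h1).2 ?_
      have h2 : Φ w - Φ y = - ((p : ℤ_[p]) ^ (m + n) * (z - t)) := by
        rw [hΦw]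
        linear_combination -hz
      rw [h2, dvd_neg, pow_add]
      exact mul_dvd_mul_left _ ht
    have h1 : (p : ℤ_[p]) ^ (m + 2 * n) ∣ f y - f w := by
      have h2 := hΛ.lip f hf (s + (m + n + (s + m + n))) (by omega) w y hwy
      have h3 : (p : ℤ_[p]) ^ (m + 2 * n) ∣ f w - f y :=
        dvd_trans (pow_dvd_pow _ (by omega)) h2
      rw [← neg_sub]
      exact (dvd_neg).2 h3
    have h2 : (p : ℤ_[p]) ^ (2 * n) ∣ f w - f x - (p : ℤ_[p]) ^ n * (t * g x) := by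
      have h3 : f w - f x = (p : ℤ_[p]) ^ n *
          ∑ l ∈ Finset.range t, G n ((Y (s + m + n) ^ l) x) := tele (hG n) t x
      rw [h3, ← mul_sub, two_mul, pow_add]
      refine mul_dvd_mul_left _ ?_
      have h4 : (p : ℤ_[p]) ^ n ∣
          ∑ l ∈ Finset.range t, G n ((Y (s + m + n) ^ l) x) - t * G n x := by
        refine sum_const (fun l => ?_) t
        have h5 := hΛ.lip (G n) (hGΛ n) (s + m + n) (by omega) _ _
          (pow_ker (hYk (s + m + n) (by omega)) l x)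
        have h6 : s + m + n - (s + m) = n := by omega
        rwa [h6] at h5
      have h7 : (p : ℤ_[p]) ^ n ∣ t * (g x - G n x) := Dvd.dvd.mul_left (hg x n) _
      have h8 := dvd_sub h4 h7
      have h9 : ∑ l ∈ Finset.range t, G n ((Y (s + m + n) ^ l) x) - t * g x =
          ∑ l ∈ Finset.range t, G n ((Y (s + m + n) ^ l) x) - t * G n x -
            t * (g x - G n x) := by ring
      rw [h9]
      exact h8
    have e1 : 2 * (s + m + n) - (s + m) - s = m + 2 * n := by omega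
    have e2 : s + m - s = m := by omega
    rw [e1, e2]
    have h3 : (p : ℤ_[p]) ^ m * (f y - f x) - (Φ y - Φ x) * g x =
        (p : ℤ_[p]) ^ m * (f y - f w) +
        (p : ℤ_[p]) ^ m * (f w - f x - (p : ℤ_[p]) ^ n * (t * g x)) -
        (p : ℤ_[p]) ^ (m + n) * (z - t) * g x := by
      rw [hz, pow_add]
      ring
    rw [h3]
    refine dvd_sub (dvd_add ?_ ?_) ?_
    · exact Dvd.dvd.mul_left h1 _
    · rw [pow_add]
      exact mul_dvd_mul_left _ h2
    · refine Dvd.dvd.mul_right ?_ _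
      have h4 : (p : ℤ_[p]) ^ (m + 2 * n) ∣ (p : ℤ_[p]) ^ (m + n) * (p : ℤ_[p]) ^ (s + m + n) := by
        rw [← pow_add]
        exact pow_dvd_pow _ (by omega)
      exact dvd_trans h4 (mul_dvd_mul_left _ ht)

theorem main : S_DHY := by
  intro _ p _ s Q X J α Φ e Λ hB hE hΛ
  classical
  choose! D hD1 hD2 using fun f hf => core hB hE hΛ f hf
  exact ⟨D, hD1, hD2⟩

end Pool.Agent.W61.SG.DHY
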